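import Pool.Agent.Q62.FS.Asm
import Pool.Agent.Q62.FS.Bas
import Pool.Agent.Q62.FS.Zer
import Pool.Agent.Q24.FS.GRE
import Pool.Agent.Q24.FS.MAIN
import Pool.Agent.Q24.FS.PTS
import Pool.Agent.Q24.FS.ABE
import Pool.Agent.Q24.FS.VLO
import Pool.Agent.Q137.FS.Ltj
import Pool.Agent.Q137.FS.Jtl
import Pool.Agent.Q137.FS.Tau
import Pool.Agent.Q137.FS.Dir

/-! MP_f4cb44_an, Q1: full answer (the statement is true).

Sequences are indexed from `0`: the term `l_j` of the problem (`j ≥ 1`) is `l (j - 1)` here. -/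

set_option autoImplicit false

namespace Pool.Agent.Results.MP_f4cb44_an.MassDistribution

open Filter Topology Set

/-- `0 < liminf l_j j^(1/d)` and `limsup l_j j^(1/d) < ∞` -/
def HasMinkowskiDimension (d : ℝ) (l : ℕ → ℝ) : Prop :=
  ∃ a b : ℝ, 0 < a ∧ ∀ᶠ j : ℕ in atTop,
    a ≤ l j * ((j : ℝ) + 1) ^ (1 / d) ∧ l j * ((j : ℝ) + 1) ^ (1 / d) ≤ b

/-- the limit of `l_j j^(1/d)` exists and lies in `(0, ∞)` -/
def MinkowskiMeasurable (d : ℝ) (l : ℕ → ℝ) : Prop :=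
  ∃ q : ℝ, 0 < q ∧ Tendsto (fun j : ℕ => l j * ((j : ℝ) + 1) ^ (1 / d)) atTop (𝓝 q)

/-- the index set can be split into `n` pairwise disjoint sets (the fibres of `g`), each of
total length at least `x` -/
def Splits (l : ℕ → ℝ) (x : ℝ) (n : ℕ) : Prop :=
  ∃ g : ℕ → Fin n, ∀ i : Fin n, x ≤ ∑' j : ℕ, if g j = i then l j else 0

/-- the mass distribution function `N(l, x)` -/
noncomputable def massDistribution (l : ℕ → ℝ) (x : ℝ) : ℕ := sSup {n : ℕ | Splits l x n}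

theorem result :
    ∀ d : ℝ, 0 < d → d < 1 → ∀ l : ℕ → ℝ, (∀ j, 0 < l j) → Antitone l →
    (HasMinkowskiDimension d l → Summable l ∧
      (MinkowskiMeasurable d l ↔ ∃ C : ℝ, 0 < C ∧
        Tendsto (fun x : ℝ => (massDistribution l x : ℝ) * x ^ d) (𝓝[>] 0) (𝓝 C))) ∧
    (Summable l →
      (∀ x : ℝ, 0 < x → x ≤ ∑' j, l j →
        IsGreatest {n : ℕ | Splits l x n} (massDistribution l x)) ∧
      ∀ q : ℝ, 0 < q →
        (Tendsto (fun j : ℕ => l j * ((j : ℝ) + 1) ^ (1 / d)) atTop (𝓝 q) ↔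
          Tendsto (fun x : ℝ => (massDistribution l x : ℝ) * x ^ d) (𝓝[>] 0)
            (𝓝 (q ^ d / (1 - d))))) := by
  intro d hd0 hd1 l hpos hanti
  have bas := Pool.Agent.Q62.FS.t_BAS
  have upp := Pool.Agent.Q62.FS.t_UPP
  have gre := Pool.Agent.Q24.FS.gre
  have low := Pool.Agent.Q24.FS.low
  have nnn := Pool.Agent.Q24.FS.nnn
  have fin : Pool.Agent.Q62.FS.S_FIN := Pool.Agent.Q62.FS.fin bas Pool.Agent.Q62.FS.t_CON
    Pool.Agent.Q62.FS.t_ZER upp gre low nnn Pool.Agent.Q137.FS.t_LTJ Pool.Agent.Q137.FS.t_JTL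
    Pool.Agent.Q24.FS.abe Pool.Agent.Q137.FS.t_TAU Pool.Agent.Q24.FS.vlo Pool.Agent.Q24.FS.pts
    Pool.Agent.Q62.FS.t_DER Pool.Agent.Q24.FS.mn Pool.Agent.Q137.FS.t_DIR
  have hmain : Summable l →
      (∀ x : ℝ, 0 < x → x ≤ ∑' j, l j →
        IsGreatest {n : ℕ | Splits l x n} (massDistribution l x)) ∧
      ∀ q : ℝ, 0 < q →
        (Tendsto (fun j : ℕ => l j * ((j : ℝ) + 1) ^ (1 / d)) atTop (𝓝 q) ↔
          Tendsto (fun x : ℝ => (massDistribution l x : ℝ) * x ^ d) (𝓝[>] 0)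
            (𝓝 (q ^ d / (1 - d)))) := by
    intro hs
    have h : Pool.Agent.Q62.FS.Hyp l := ⟨hpos, hanti, hs⟩
    exact ⟨fun x hx hxs => (nnn bas upp gre low l h).1 x hx hxs, fun q hq => fin d hd0 hd1 l h q hq⟩
  refine ⟨?_, hmain⟩
  rintro ⟨a, b, ha, hab⟩
  have hs : Summable l :=
    Pool.Agent.Q62.FS.t_SUM l d b hpos hd0 hd1 (hab.mono fun j hj => hj.2)
  refine ⟨hs, ?_, ?_⟩
  · rintro ⟨q, hq, hl⟩
    exact ⟨q ^ d / (1 - d), div_pos (Real.rpow_pos_of_pos hq d) (by linarith),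
      ((hmain hs).2 q hq).mp hl⟩
  · rintro ⟨C, hC, hN⟩
    have h1 : 0 < C * (1 - d) := mul_pos hC (by linarith)
    refine ⟨(C * (1 - d)) ^ (1 / d), Real.rpow_pos_of_pos h1 _, ?_⟩
    refine ((hmain hs).2 _ (Real.rpow_pos_of_pos h1 _)).mpr ?_
    have e : ((C * (1 - d)) ^ (1 / d)) ^ d / (1 - d) = C := by
      rw [← Real.rpow_mul h1.le, one_div, inv_mul_cancel₀ hd0.ne', Real.rpow_one]
      have : (1 - d) ≠ 0 := by linarith
      field_simp
    rw [e]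
    exact hN

end Pool.Agent.Results.MP_f4cb44_an.MassDistribution
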